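import Mathlib

/-! # Very general cubic forms

Countably many polynomial conditions which force the coefficients of a cubic form to be
algebraically independent over the rational numbers. -/

set_option autoImplicit false

namespace Pool.Agent.Y201.VL

open MvPolynomial

/-- the exponents of degree `d` -/
abbrev Ex (σ : Type*) (d : ℕ) : Type _ := {m : σ →₀ ℕ // m.degree = d}

theorem coeff_form {σ : Type*} [Fintype σ] [DecidableEq σ] (d : ℕ) (a : Ex σ d → ℂ) :
    ∃ G : MvPolynomial σ ℂ, G.IsHomogeneous d ∧ ∀ m : Ex σ d, G.coeff m = a m := by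
  classical
  let a' : (σ →₀ ℕ) → ℂ := fun m => if h : m.degree = d then a ⟨m, h⟩ else 0
  have hmem : ∀ m : σ →₀ ℕ, m ∈ (Finset.univ : Finset σ).finsuppAntidiag d ↔ m.degree = d := by
    intro m
    rw [Finset.mem_finsuppAntidiag, Finsupp.degree_eq_sum]
    constructor
    · exact fun h => h.1
    · exact fun h => ⟨h, Finset.subset_univ _⟩
  refine ⟨∑ m ∈ (Finset.univ : Finset σ).finsuppAntidiag d, monomial m (a' m), ?_, ?_⟩
  · refine IsHomogeneous.sum _ _ _ fun m hm => ?_
    exact isHomogeneous_monomial _ ((hmem m).mp hm)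
  · intro m
    rw [coeff_sum, Finset.sum_eq_single (m : σ →₀ ℕ)]
    · rw [coeff_monomial, if_pos rfl]
      show a' m = a m
      simp only [a', m.2, dite_true]
    · intro b _ hb
      rw [coeff_monomial, if_neg hb]
    · intro h
      exact absurd ((hmem _).mpr m.2) h

theorem very_general (σ : Type*) [Fintype σ] [DecidableEq σ] (d : ℕ) :
    ∃ P : ℕ → MvPolynomial (σ →₀ ℕ) ℂ,
      (∀ k, ∃ G : MvPolynomial σ ℂ, G.IsHomogeneous d ∧
        MvPolynomial.eval (fun m => G.coeff m) (P k) ≠ 0) ∧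
      ∀ F : MvPolynomial σ ℂ, (∀ k, MvPolynomial.eval (fun m => F.coeff m) (P k) ≠ 0) →
        AlgebraicIndependent ℚ (fun m : Ex σ d => F.coeff (m : σ →₀ ℕ)) := by
  classical
  have hne : Nonempty {p : MvPolynomial (Ex σ d) ℚ // p ≠ 0} := ⟨⟨1, one_ne_zero⟩⟩
  have : Countable (MvPolynomial (Ex σ d) ℚ) := by
    have h0 : Countable (Ex σ d) := inferInstance
    rw [← Cardinal.mk_le_aleph0_iff]
    refine (MvPolynomial.cardinalMk_le_max_lift (σ := Ex σ d) (R := ℚ)).trans ?_
    simp only [sup_le_iff, Cardinal.lift_le_aleph0, Cardinal.mk_le_aleph0, le_refl, and_self]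
  obtain ⟨s, hs⟩ := exists_surjective_nat {p : MvPolynomial (Ex σ d) ℚ // p ≠ 0}
  have key : ∀ (p : MvPolynomial (Ex σ d) ℚ) (b : (σ →₀ ℕ) → ℂ),
      MvPolynomial.eval b (rename (Subtype.val : Ex σ d → (σ →₀ ℕ))
        (MvPolynomial.map (algebraMap ℚ ℂ) p)) = MvPolynomial.aeval (fun m : Ex σ d => b m) p := by
    intro p b
    rw [eval_rename, eval_map, aeval_def]
    rfl
  refine ⟨fun k => rename (Subtype.val : Ex σ d → (σ →₀ ℕ))
    (MvPolynomial.map (algebraMap ℚ ℂ) (s k).1), ?_, ?_⟩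
  · intro k
    have h1 : ∃ a : Ex σ d → ℂ, MvPolynomial.aeval a (s k).1 ≠ 0 := by
      by_contra hcon
      push Not at hcon
      apply (s k).2
      have h2 : MvPolynomial.map (algebraMap ℚ ℂ) (s k).1 = 0 := by
        apply MvPolynomial.funext
        intro x
        rw [eval_map, map_zero]
        exact hcon x
      exact (map_eq_zero_iff _ (map_injective _ (algebraMap ℚ ℂ).injective)).mp h2
    obtain ⟨a, ha⟩ := h1
    obtain ⟨G, hG, hGa⟩ := coeff_form d a
    refine ⟨G, hG, ?_⟩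
    rw [key]
    have : (fun m : Ex σ d => G.coeff (m : σ →₀ ℕ)) = a := funext hGa
    rw [this]
    exact ha
  · intro F hF
    rw [algebraicIndependent_iff]
    intro p hp
    by_contra hp0
    obtain ⟨k, hk⟩ := hs ⟨p, hp0⟩
    apply hF k
    show MvPolynomial.eval _ (rename (Subtype.val : Ex σ d → (σ →₀ ℕ))
      (MvPolynomial.map (algebraMap ℚ ℂ) (s k).1)) = 0
    rw [hk, key]
    exact hp

/-- A valuation ring of `ℂ` in which algebraically independent numbers specialize to given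
rational numbers. -/
theorem exists_valuation {ι : Type*} (a : ι → ℂ) (ha : AlgebraicIndependent ℚ a) (c : ι → ℚ) :
    ∃ V : ValuationSubring ℂ, (∀ q : ℚ, (q : ℂ) ∈ V) ∧ ∀ i, a i - (c i : ℂ) ∈ V.nonunits := by
  classical
  let A : Subalgebra ℚ ℂ := Algebra.adjoin ℚ (Set.range a)
  let φ : A →ₐ[ℚ] ℚ := (MvPolynomial.aeval c).comp ha.aevalEquiv.symm.toAlgHom
  let I : Ideal A.toSubring := RingHom.ker (φ : A →+* ℚ)
  have hI : I ≠ ⊤ := RingHom.ker_ne_top (φ : A →+* ℚ)
  obtain ⟨V, hV1, hV2⟩ := Ideal.image_subset_nonunits_valuationSubring (A := A.toSubring) I hI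
  refine ⟨V, fun q => hV1 (A.algebraMap_mem q), fun i => hV2 ?_⟩
  have hmem : a i - (c i : ℂ) ∈ A :=
    A.sub_mem (Algebra.subset_adjoin ⟨i, rfl⟩) (A.algebraMap_mem (c i))
  refine ⟨⟨a i - (c i : ℂ), hmem⟩, ?_, rfl⟩
  show φ ⟨a i - (c i : ℂ), hmem⟩ = 0
  have h1 : (⟨a i - (c i : ℂ), hmem⟩ : A) = ha.aevalEquiv (X i - C (c i)) := by
    apply Subtype.ext
    have h2 := ha.algebraMap_aevalEquiv (X i - C (c i))
    have h3 : MvPolynomial.aeval a (X i - C (c i) : MvPolynomial ι ℚ) = a i - (c i : ℂ) := by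
      rw [map_sub, aeval_X, aeval_C]
      rfl
    rw [h3] at h2
    exact h2.symm
  rw [h1]
  show MvPolynomial.aeval c (ha.aevalEquiv.symm (ha.aevalEquiv (X i - C (c i)))) = 0
  rw [AlgEquiv.symm_apply_apply]
  simp

end Pool.Agent.Y201.VL
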