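import Pool.Agent.Y201.VL.Form
import Pool.Agent.Helper273.Brg.P_springer

/-! # Lines with contact of order three at the generic point -/

set_option autoImplicit false

namespace Pool.Agent.Y201.VL

open MvPolynomial

theorem pd_comm {R : Type*} [CommRing R] {σ : Type*} (i j : σ) (p : MvPolynomial σ R) :
    pderiv i (pderiv j p) = pderiv j (pderiv i p) := by
  classical
  have h : ⁅(pderiv i : Derivation R (MvPolynomial σ R) (MvPolynomial σ R)),
      (pderiv j : Derivation R (MvPolynomial σ R) (MvPolynomial σ R))⁆ = 0 := by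
    refine derivation_ext fun k => ?_
    rw [Derivation.commutator_apply, Derivation.zero_apply, pderiv_X, pderiv_X]
    have h1 : ∀ (s t : σ), pderiv s ((Pi.single t (1 : MvPolynomial σ R) :
        σ → MvPolynomial σ R) k) = 0 := by
      intro s t
      by_cases hk : k = t
      · subst hk; rw [Pi.single_eq_same]; exact pderiv_one
      · rw [Pi.single_eq_of_ne hk, map_zero]
    rw [h1, h1, sub_zero]
  have h2 := DFunLike.congr_fun h p
  rw [Derivation.commutator_apply, Derivation.zero_apply, sub_eq_zero] at h2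
  exact h2

/-- the restriction of `p` to the line through `x` with direction `v` -/
noncomputable def res {M : Type*} [Field M] [Algebra ℂ M] {m : ℕ} (x v : Fin m → M) :
    MvPolynomial (Fin m) ℂ →ₐ[ℂ] Polynomial M :=
  aeval fun j => Polynomial.C (x j) + Polynomial.C (v j) * Polynomial.X

theorem res_deriv {M : Type*} [Field M] [Algebra ℂ M] {m : ℕ} (x v : Fin m → M)
    (p : MvPolynomial (Fin m) ℂ) :
    Polynomial.derivative (res x v p) = ∑ j, Polynomial.C (v j) * res x v (pderiv j p) := by
  classical
  induction p using MvPolynomial.induction_on with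
  | C a =>
    simp only [pderiv_C, map_zero, mul_zero, Finset.sum_const_zero]
    rw [res, aeval_C, Polynomial.algebraMap_apply, Polynomial.derivative_C]
  | add p q hp hq =>
    rw [map_add, Polynomial.derivative_add, hp, hq, ← Finset.sum_add_distrib]
    refine Finset.sum_congr rfl fun j _ => ?_
    rw [map_add, map_add, mul_add]
  | mul_X p i hp =>
    have h1 : res x v (X i) = Polynomial.C (x i) + Polynomial.C (v i) * Polynomial.X := by
      rw [res, aeval_X]
    have h2 : ∀ j, Polynomial.C (v j) * res x v (pderiv j (p * X i)) =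
        (Polynomial.C (v j) * res x v (pderiv j p)) * res x v (X i) +
        res x v p * (if j = i then Polynomial.C (v i) else 0) := by
      intro j
      rw [Derivation.leibniz, pderiv_X, map_add, smul_eq_mul, smul_eq_mul, map_mul, map_mul]
      by_cases h : j = i
      · subst h
        rw [Pi.single_eq_same, map_one, if_pos rfl]
        ring
      · rw [if_neg h, Pi.single_eq_of_ne (Ne.symm h), map_zero]
        ring
    simp only [h2]
    rw [Finset.sum_add_distrib, ← Finset.sum_mul, ← hp, ← Finset.mul_sum,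
      Finset.sum_ite_eq' Finset.univ i, if_pos (Finset.mem_univ _), map_mul,
      Polynomial.derivative_mul]
    congr 2
    rw [h1, Polynomial.derivative_add, Polynomial.derivative_C, zero_add,
      Polynomial.derivative_C_mul, Polynomial.derivative_X, mul_one]

theorem res_eval {M : Type*} [Field M] [Algebra ℂ M] {m : ℕ} (x v : Fin m → M)
    (p : MvPolynomial (Fin m) ℂ) : (res x v p).eval 0 = aeval x p := by
  induction p using MvPolynomial.induction_on with
  | C a => rw [res, aeval_C, aeval_C, Polynomial.algebraMap_apply, Polynomial.eval_C]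
  | add p q hp hq => rw [map_add, map_add, Polynomial.eval_add, hp, hq]
  | mul_X p i hp =>
    rw [map_mul, map_mul, Polynomial.eval_mul, hp, res, aeval_X, aeval_X]
    simp

/-- contact of order three -/
theorem contact {M : Type*} [Field M] [Algebra ℂ M] {m : ℕ} (x v : Fin m → M)
    (f : MvPolynomial (Fin m) ℂ) (h : Polynomial.X ^ 3 ∣ res x v f) :
    ∑ j, v j * aeval x (pderiv j f) = 0 ∧
      ∑ i, ∑ j, v i * v j * aeval x (pderiv i (pderiv j f)) = 0 := by
  obtain ⟨Q, hQ⟩ := h
  have h1 : Polynomial.derivative (res x v f) =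
      Polynomial.X * (Polynomial.X * (3 * Q + Polynomial.X * Polynomial.derivative Q)) := by
    rw [hQ, Polynomial.derivative_mul, Polynomial.derivative_X_pow]
    simp only [Nat.cast_ofNat, Nat.add_one_sub_one]
    have : (Polynomial.C (3 : M)) = 3 := map_ofNat Polynomial.C 3
    rw [this]
    ring
  have h2 : (Polynomial.derivative (Polynomial.derivative (res x v f))).eval 0 = 0 := by
    rw [h1, Polynomial.derivative_mul, Polynomial.derivative_X]
    simp
  have h3 : (Polynomial.derivative (res x v f)).eval 0 = 0 := by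
    rw [h1]; simp
  constructor
  · rw [res_deriv, Polynomial.eval_finsetSum] at h3
    rw [← h3]
    refine Finset.sum_congr rfl fun j _ => ?_
    rw [Polynomial.eval_mul, Polynomial.eval_C, res_eval]
  · rw [res_deriv, Polynomial.derivative_sum, Polynomial.eval_finsetSum] at h2
    rw [← h2, Finset.sum_comm]
    refine Finset.sum_congr rfl fun j _ => ?_
    rw [Polynomial.derivative_C_mul, res_deriv, Polynomial.eval_mul, Polynomial.eval_C,
      Polynomial.eval_finsetSum, Finset.mul_sum]
    refine Finset.sum_congr rfl fun i _ => ?_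
    rw [Polynomial.eval_mul, Polynomial.eval_C, res_eval]
    ring

/-- the quadratic form `HH` on the first coordinates of a direction with contact of order three -/
theorem HH_zero {M : Type*} [Field M] [Algebra ℂ M] {n : ℕ} (x v : Fin (n + 1) → M)
    (f : MvPolynomial (Fin (n + 1)) ℂ)
    (h1 : ∑ j, v j * aeval x (pderiv j f) = 0)
    (h2 : ∑ i, ∑ j, v i * v j * aeval x (pderiv i (pderiv j f)) = 0) :
    ∑ i : Fin n, ∑ j : Fin n, aeval x (HH f i j) * v i.castSucc * v j.castSucc = 0 := by
  rw [Fin.sum_univ_castSucc] at h1 h2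
  simp only [Fin.sum_univ_castSucc] at h2
  set z := Fin.last n with hz
  set Fz := aeval x (pderiv z f) with hFz
  set s := ∑ i : Fin n, v i.castSucc * aeval x (pderiv i.castSucc f) with hs
  set T := ∑ i : Fin n, v i.castSucc * aeval x (pderiv i.castSucc (pderiv z f)) with hT
  set S2 := ∑ i : Fin n, ∑ j : Fin n,
    v i.castSucc * v j.castSucc * aeval x (pderiv i.castSucc (pderiv j.castSucc f)) with hS2
  have e1 : ∑ i : Fin n, (∑ j : Fin n, v i.castSucc * v j.castSucc *
      aeval x (pderiv i.castSucc (pderiv j.castSucc f)) +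
      v i.castSucc * v z * aeval x (pderiv i.castSucc (pderiv z f))) = S2 + v z * T := by
    rw [Finset.sum_add_distrib, hT, Finset.mul_sum]
    congr 1
    refine Finset.sum_congr rfl fun i _ => by ring
  have e2 : ∑ j : Fin n, v z * v j.castSucc * aeval x (pderiv z (pderiv j.castSucc f)) =
      v z * T := by
    rw [hT, Finset.mul_sum]
    refine Finset.sum_congr rfl fun i _ => ?_
    rw [pd_comm z]
    ring
  rw [e1, e2] at h2
  have e3 : ∑ i : Fin n, ∑ j : Fin n, aeval x (HH f i j) * v i.castSucc * v j.castSucc =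
      Fz * Fz * S2 - Fz * (T * s) - Fz * (s * T) +
        aeval x (pderiv z (pderiv z f)) * (s * s) := by
    have a1 : T * s = ∑ i : Fin n, ∑ j : Fin n,
        (v i.castSucc * aeval x (pderiv i.castSucc (pderiv z f))) *
        (v j.castSucc * aeval x (pderiv j.castSucc f)) := Finset.sum_mul_sum _ _ _ _
    have a2 : s * T = ∑ i : Fin n, ∑ j : Fin n,
        (v i.castSucc * aeval x (pderiv i.castSucc f)) *
        (v j.castSucc * aeval x (pderiv j.castSucc (pderiv z f))) := Finset.sum_mul_sum _ _ _ _
    have a3 : s * s = ∑ i : Fin n, ∑ j : Fin n,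
        (v i.castSucc * aeval x (pderiv i.castSucc f)) *
        (v j.castSucc * aeval x (pderiv j.castSucc f)) := Finset.sum_mul_sum _ _ _ _
    rw [a1, a2, a3, hS2]
    simp only [Finset.mul_sum]
    simp only [← Finset.sum_sub_distrib, ← Finset.sum_add_distrib]
    refine Finset.sum_congr rfl fun i _ => Finset.sum_congr rfl fun j _ => ?_
    simp only [HH, map_add, map_sub, map_mul]
    ring
  rw [e3]
  have h3 : s = -(v z * Fz) := by linear_combination h1
  rw [h3]
  linear_combination (Fz * Fz) * h2

/-- a nontrivial zero over an extension of odd degree of the field generated by the image of `ψ`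
gives a nontrivial zero in the ring -/
theorem odd_descent {R : Type*} [CommRing R] [Algebra ℂ R] {M : Type*} [Field M] [Algebra ℂ M]
    (ψ : R →ₐ[ℂ] M)
    (hodd : Odd (Module.finrank (IntermediateField.adjoin ℂ (Set.range ψ)) M))
    {m : ℕ} (Q : Fin m → Fin m → R) (w : Fin m → M) (hw : ∃ i, w i ≠ 0)
    (h : ∑ i, ∑ j, ψ (Q i j) * w i * w j = 0) :
    ∃ r : Fin m → R, (∃ i, ψ (r i) ≠ 0) ∧ ψ (∑ i, ∑ j, Q i j * r i * r j) = 0 := by
  classical
  let E : IntermediateField ℂ M := IntermediateField.adjoin ℂ (Set.range ψ)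
  have hfin : FiniteDimensional E M := FiniteDimensional.of_finrank_pos hodd.pos
  obtain ⟨α, hα⟩ := Field.exists_primitive_element E M
  have hint : IsIntegral E α := IsIntegral.of_finite E α
  have hadj : Algebra.adjoin E {α} = ⊤ := by
    rw [← IntermediateField.adjoin_simple_toSubalgebra_of_isAlgebraic hint.isAlgebraic, hα]
    rfl
  have hdeg : Odd (minpoly E α).natDegree := by
    rw [← IntermediateField.adjoin.finrank hint, hα, IntermediateField.finrank_top']
    exact hodd
  have hP : ∀ i, ∃ P : Polynomial E, Polynomial.aeval α P = w i := by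
    intro i
    have h1 : w i ∈ Algebra.adjoin E {α} := by rw [hadj]; trivial
    rw [Algebra.adjoin_singleton_eq_range_aeval] at h1
    exact h1
  choose P hP using hP
  have hmemE : ∀ a : R, ψ a ∈ E := fun a => IntermediateField.subset_adjoin _ _ ⟨a, rfl⟩
  obtain ⟨w', hw'0, hw'⟩ := Helper273.Sup.springer
    (Matrix.of fun i j => (⟨ψ (Q i j), hmemE _⟩ : E)) α hint hdeg P
    (by obtain ⟨i, hi⟩ := hw; exact ⟨i, by rw [hP]; exact hi⟩)
    (by
      rw [← h]
      refine Finset.sum_congr rfl fun i _ => Finset.sum_congr rfl fun j _ => ?_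
      rw [hP, hP]
      rfl)
  have hfr : ∀ i, ∃ a b : R, ψ b ≠ 0 ∧ ((w' i : E) : M) * ψ b = ψ a := by
    intro i
    obtain ⟨r, hr, s, hs, hrs⟩ := IntermediateField.mem_adjoin_iff_div.mp (w' i).2
    have hrange : Algebra.adjoin ℂ (Set.range ψ) = ψ.range := by
      rw [← AlgHom.coe_range, Algebra.adjoin_eq]
    rw [hrange] at hr hs
    obtain ⟨a, rfl⟩ := hr
    obtain ⟨b, rfl⟩ := hs
    by_cases hb : ψ b = 0
    · refine ⟨0, 1, by rw [map_one]; exact one_ne_zero, ?_⟩
      have h1 : ψ.toRingHom b = 0 := hb
      rw [map_zero, map_one, mul_one, hrs, h1, div_zero]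
    · exact ⟨a, b, hb, by rw [hrs]; exact div_mul_cancel₀ _ hb⟩
  choose a b hb hab using hfr
  let d : R := ∏ j, b j
  have hd : ψ d ≠ 0 := by
    rw [map_prod]
    exact Finset.prod_ne_zero_iff.mpr fun j _ => hb j
  have hr : ∀ i, ψ (a i * ∏ j ∈ Finset.univ.erase i, b j) = ψ d * (w' i : M) := by
    intro i
    rw [map_mul, ← hab i]
    have h1 : d = b i * ∏ j ∈ Finset.univ.erase i, b j :=
      (Finset.mul_prod_erase _ _ (Finset.mem_univ i)).symm
    rw [h1, map_mul]
    ring
  refine ⟨fun i => a i * ∏ j ∈ Finset.univ.erase i, b j, ?_, ?_⟩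
  · by_contra hcon
    push Not at hcon
    apply hw'0
    funext i
    have h1 := hcon i
    rw [hr i] at h1
    rcases mul_eq_zero.mp h1 with h2 | h2
    · exact absurd h2 hd
    · exact Subtype.ext h2
  · have h1 := congrArg (algebraMap E M) hw'
    rw [map_zero, map_sum] at h1
    have h2 : ψ (∑ i, ∑ j, Q i j * (a i * ∏ k ∈ Finset.univ.erase i, b k) *
        (a j * ∏ k ∈ Finset.univ.erase j, b k)) = ψ d * ψ d *
        ∑ i, algebraMap E M (∑ j, (Matrix.of fun i j => (⟨ψ (Q i j), hmemE _⟩ : E)) i j *
          w' i * w' j) := by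
      rw [map_sum, Finset.mul_sum]
      refine Finset.sum_congr rfl fun i _ => ?_
      rw [map_sum, map_sum, Finset.mul_sum]
      refine Finset.sum_congr rfl fun j _ => ?_
      rw [map_mul, map_mul, hr, hr, map_mul, map_mul]
      show _ = ψ d * ψ d * (ψ (Q i j) * (w' i : M) * (w' j : M))
      ring
    rw [h2, h1, mul_zero]

/-- no line of contact three through the generic point over an extension of odd degree -/
theorem no_contact {n : ℕ} (f : MvPolynomial (Fin (n + 1)) ℂ)
    (han : ∀ r : Fin n → MvPolynomial (Fin (n + 1)) ℂ,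
      f ∣ ∑ i, ∑ j, HH f i j * r i * r j → ∀ i, f ∣ r i)
    (hlast : ¬ f ∣ pderiv (Fin.last n) f)
    {M : Type*} [Field M] [Algebra ℂ M]
    (ψ : (MvPolynomial (Fin (n + 1)) ℂ ⧸ Ideal.span {f}) →ₐ[ℂ] M) (hψ : Function.Injective ψ)
    (hodd : Odd (Module.finrank (IntermediateField.adjoin ℂ (Set.range ψ)) M))
    (v : Fin (n + 1) → M) (hv : v ≠ 0)
    (h : Polynomial.X ^ 3 ∣ res (fun j => ψ (Ideal.Quotient.mk _ (X j))) v f) : False := by
  classical
  set x : Fin (n + 1) → M := fun j => ψ (Ideal.Quotient.mk _ (X j)) with hx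
  have hev : ∀ p : MvPolynomial (Fin (n + 1)) ℂ, aeval x p = ψ (Ideal.Quotient.mk _ p) := by
    intro p
    have h1 : aeval x = ψ.comp (Ideal.Quotient.mkₐ ℂ (Ideal.span {f})) := by
      apply algHom_ext
      intro j
      rw [aeval_X]
      rfl
    rw [h1]
    rfl
  have hz : ∀ p : MvPolynomial (Fin (n + 1)) ℂ, aeval x p = 0 ↔ f ∣ p := by
    intro p
    rw [hev, map_eq_zero_iff ψ hψ, Ideal.Quotient.eq_zero_iff_mem, Ideal.mem_span_singleton]
  obtain ⟨h1, h2⟩ := contact x v f h
  have h3 := HH_zero x v f h1 h2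
  have hw : ∃ i : Fin n, v i.castSucc ≠ 0 := by
    by_contra hcon
    push Not at hcon
    rw [Fin.sum_univ_castSucc, Finset.sum_eq_zero (fun i _ => by rw [hcon i, zero_mul]),
      zero_add] at h1
    rcases mul_eq_zero.mp h1 with h4 | h4
    · apply hv
      funext i
      refine Fin.lastCases h4 (fun i => hcon i) i
    · exact hlast ((hz _).mp h4)
  obtain ⟨r, ⟨i0, hi0⟩, hr⟩ := odd_descent ψ hodd
    (fun i j => Ideal.Quotient.mk (Ideal.span {f}) (HH f i j)) (fun i => v i.castSucc) hw (by
      rw [← h3]
      refine Finset.sum_congr rfl fun i _ => Finset.sum_congr rfl fun j _ => ?_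
      rw [hev])
  choose r' hr' using fun i => Ideal.Quotient.mk_surjective (r i)
  have h4 : f ∣ ∑ i, ∑ j, HH f i j * r' i * r' j := by
    rw [← hz, hev, ← hr]
    congr 1
    rw [map_sum]
    refine Finset.sum_congr rfl fun i _ => ?_
    rw [map_sum]
    refine Finset.sum_congr rfl fun j _ => ?_
    rw [map_mul, map_mul, hr', hr']
  have h5 := han r' h4 i0
  apply hi0
  rw [← hr' i0, ← hev]
  exact (hz _).mpr h5

end Pool.Agent.Y201.VL
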