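import Pool.Agent.Y201.VL.Geo
import Pool.Agent.Y201.VL.Lines

/-! # Maps which are linear in one parameter -/

set_option autoImplicit false

namespace Pool.Agent.Y201.VL

open MvPolynomial

theorem hom_smul {A : Type*} [CommRing A] [Algebra ℂ A] {σ : Type*} [Fintype σ]
    {p : MvPolynomial σ ℂ} {d : ℕ} (hp : p.IsHomogeneous d) (c : A) (y : σ → A) :
    aeval (fun i => c * y i) p = c ^ d * aeval y p := by
  classical
  rw [aeval_def, aeval_def, eval₂_eq', eval₂_eq', Finset.mul_sum]
  refine Finset.sum_congr rfl fun m hm => ?_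
  have h1 : ∑ i, m i = d := by
    have h2 := hp (mem_support_iff.mp hm)
    rw [← Finsupp.degree_eq_sum, Finsupp.degree_eq_weight_one]
    exact h2
  simp only [mul_pow]
  rw [Finset.prod_mul_distrib, Finset.prod_pow_eq_pow_sum, h1]
  ring

theorem dh_aeval {A : Type*} [CommRing A] [Algebra ℂ A] {n : ℕ} (x : Fin (n + 1) → A)
    (F : MvPolynomial (Fin (n + 1 + 1)) ℂ) :
    aeval x (dh ℂ n F) = aeval (Fin.cases (motive := fun _ => A) 1 x) F := by
  have h : (aeval x).comp (dh ℂ n) = aeval (Fin.cases (motive := fun _ => A) 1 x) := by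
    apply algHom_ext
    intro i
    rw [AlgHom.comp_apply]
    refine Fin.cases ?_ (fun j => ?_) i
    · rw [dh_zero, map_one, aeval_X]; rfl
    · rw [dh_succ, aeval_X, aeval_X]; rfl
  rw [← h]; rfl

theorem dh_frac {A : Type*} [CommRing A] [Algebra ℂ A] {n : ℕ} (x : Fin (n + 1) → A) (c : A)
    (F : MvPolynomial (Fin (n + 1 + 1)) ℂ) (hF : F.IsHomogeneous 3) :
    aeval (Fin.cases (motive := fun _ => A) c (fun j => c * x j)) F =
      c ^ 3 * aeval x (dh ℂ n F) := by
  rw [dh_aeval, ← hom_smul hF]
  congr 2
  funext i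
  refine Fin.cases ?_ (fun j => ?_) i
  · exact (mul_one c).symm
  · rfl

theorem eval_res {M : Type*} [Field M] [Algebra ℂ M] {m : ℕ} (x v : Fin m → M) (t : M)
    (p : MvPolynomial (Fin m) ℂ) : (res x v p).eval t = aeval (fun j => x j + v j * t) p := by
  induction p using MvPolynomial.induction_on with
  | C a => rw [res, aeval_C, aeval_C, Polynomial.algebraMap_apply, Polynomial.eval_C]
  | add p q hp hq => rw [map_add, map_add, Polynomial.eval_add, hp, hq]
  | mul_X p i hp =>
    rw [map_mul, map_mul, Polynomial.eval_mul, hp, res, aeval_X, aeval_X]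
    simp

/-- a map which is linear in the parameter gives a line in the hypersurface through the
generic point -/
theorem line_of_linear {n : ℕ} (F : MvPolynomial (Fin (n + 1 + 1)) ℂ) (hF : F.IsHomogeneous 3)
    {L : Type*} [Field L] [Algebra ℂ L] (x : Fin (n + 1) → FractionRing (Polynomial L))
    (hx : aeval x (dh ℂ n F) = 0)
    (q : Polynomial L) (g : Fin (n + 1) → Polynomial L) (hq : q ≠ 0) (hq1 : q.natDegree ≤ 1)
    (hg : ∀ j, (g j).natDegree ≤ 1)
    (h : ∀ j, x j * algebraMap (Polynomial L) (FractionRing (Polynomial L)) q =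
      algebraMap (Polynomial L) (FractionRing (Polynomial L)) (g j)) :
    res x (fun j => algebraMap (Polynomial L) (FractionRing (Polynomial L))
      (Polynomial.C ((g j).coeff 1)) - algebraMap (Polynomial L) (FractionRing (Polynomial L))
      (Polynomial.C (q.coeff 1)) * x j) (dh ℂ n F) = 0 := by
  classical
  set ι := algebraMap (Polynomial L) (FractionRing (Polynomial L)) with hι
  have hinj : Function.Injective ι := IsFractionRing.injective _ _
  let ιA : Polynomial L →ₐ[ℂ] FractionRing (Polynomial L) :=
    IsScalarTower.toAlgHom ℂ (Polynomial L) (FractionRing (Polynomial L))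
  have hιA : ∀ p, ιA p = ι p := fun _ => rfl
  -- the polynomial identity
  have hzero : aeval (Fin.cases (motive := fun _ => Polynomial L) q g) F = 0 := by
    apply hinj
    rw [map_zero, ← hιA, comp_aeval_apply]
    have h1 : (fun i => ιA (Fin.cases (motive := fun _ => Polynomial L) q g i)) =
        (Fin.cases (motive := fun _ => FractionRing (Polynomial L)) (ι q)
          (fun j => ι q * x j)) := by
      funext i
      refine Fin.cases ?_ (fun j => ?_) i
      · rfl
      · show ι (g j) = ι q * x j
        rw [← h j, mul_comm]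
    rw [h1, dh_frac x (ι q) F hF, hx, mul_zero]
  apply Polynomial.eq_zero_of_infinite_isRoot
  -- the values
  let lam : ℂ → FractionRing (Polynomial L) := fun μ =>
    ι (Polynomial.C (algebraMap ℂ L μ)) /
      (ι q + ι (Polynomial.C (q.coeff 1)) * ι (Polynomial.C (algebraMap ℂ L μ)))
  have hc : ∀ μ : ℂ, ι q + ι (Polynomial.C (q.coeff 1)) *
      ι (Polynomial.C (algebraMap ℂ L μ)) ≠ 0 := by
    intro μ hμ
    rw [← map_mul, ← map_add, ← Polynomial.C_mul] at hμ
    have h1 := hinj (hμ.trans (map_zero ι).symm)
    have h2 := congrArg (fun p => Polynomial.coeff p 1) h1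
    simp only [Polynomial.coeff_add, Polynomial.coeff_C_succ, add_zero,
      Polynomial.coeff_zero] at h2
    rw [h2, zero_mul, Polynomial.C_0, add_zero] at h1
    exact hq h1
  have hlam : Function.Injective lam := by
    intro μ ν hμν
    have h1 := hμν
    simp only [lam] at h1
    rw [div_eq_div_iff (hc μ) (hc ν)] at h1
    have h2 : ι q * (ι (Polynomial.C (algebraMap ℂ L μ)) -
        ι (Polynomial.C (algebraMap ℂ L ν))) = 0 := by linear_combination h1
    rcases mul_eq_zero.mp h2 with h3 | h3
    · exact absurd (hinj (h3.trans (map_zero ι).symm)) hq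
    · exact (algebraMap ℂ L).injective (Polynomial.C_injective (hinj (sub_eq_zero.mp h3)))
  refine (Set.infinite_range_of_injective hlam).mono ?_
  rintro _ ⟨μ, rfl⟩
  show (res x _ (dh ℂ n F)).eval (lam μ) = 0
  rw [eval_res]
  set c := ι q + ι (Polynomial.C (q.coeff 1)) * ι (Polynomial.C (algebraMap ℂ L μ)) with hcdef
  have hc0 : c ≠ 0 := hc μ
  let τ : Polynomial L →ₐ[ℂ] Polynomial L :=
    (Polynomial.aeval (Polynomial.X + Polynomial.C (algebraMap ℂ L μ)) :
      Polynomial L →ₐ[L] Polynomial L).restrictScalars ℂ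
  have hτ : ∀ p : Polynomial L, p.natDegree ≤ 1 →
      ι (τ p) = ι p + ι (Polynomial.C (p.coeff 1)) * ι (Polynomial.C (algebraMap ℂ L μ)) := by
    intro p hp
    have h1 := Polynomial.eq_X_add_C_of_natDegree_le_one hp
    have h2 : τ p = p + Polynomial.C (p.coeff 1) * Polynomial.C (algebraMap ℂ L μ) := by
      conv_lhs => rw [h1]
      show Polynomial.aeval (Polynomial.X + Polynomial.C (algebraMap ℂ L μ))
        (Polynomial.C (p.coeff 1) * Polynomial.X + Polynomial.C (p.coeff 0)) = _
      rw [map_add, map_mul, Polynomial.aeval_C, Polynomial.aeval_C, Polynomial.aeval_X]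
      conv_rhs => rw [h1]
      simp only [Polynomial.algebraMap_apply, Algebra.algebraMap_self, RingHom.id_apply,
        Polynomial.coeff_add, Polynomial.coeff_C_mul, Polynomial.coeff_X_one,
        Polynomial.coeff_C_succ, mul_one, add_zero]
      ring
    rw [h2, map_add, map_mul]
  have hzero2 : aeval (fun i => ιA (τ (Fin.cases (motive := fun _ => Polynomial L) q g i))) F
      = 0 := by
    have h1 : ∀ y : Fin (n + 1 + 1) → Polynomial L,
        aeval (fun i => ιA (τ (y i))) F = ιA (τ (aeval y F)) := by
      intro y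
      rw [comp_aeval_apply, comp_aeval_apply]
    rw [h1, hzero, map_zero, map_zero]
  have h3 : (fun i => ιA (τ (Fin.cases (motive := fun _ => Polynomial L) q g i))) =
      (Fin.cases (motive := fun _ => FractionRing (Polynomial L)) c
        (fun j => c * (x j + (ι (Polynomial.C ((g j).coeff 1)) -
          ι (Polynomial.C (q.coeff 1)) * x j) * lam μ))) := by
    funext i
    refine Fin.cases ?_ (fun j => ?_) i
    · exact hτ q hq1
    · show ι (τ (g j)) = c * (x j + (ι (Polynomial.C ((g j).coeff 1)) -
          ι (Polynomial.C (q.coeff 1)) * x j) * lam μ)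
      rw [hτ (g j) (hg j)]
      have h4 : c * lam μ = ι (Polynomial.C (algebraMap ℂ L μ)) := by
        show c * (ι (Polynomial.C (algebraMap ℂ L μ)) / c) = _
        field_simp
      have h5 : c * (x j + (ι (Polynomial.C ((g j).coeff 1)) -
          ι (Polynomial.C (q.coeff 1)) * x j) * lam μ) = c * x j +
          (ι (Polynomial.C ((g j).coeff 1)) -
          ι (Polynomial.C (q.coeff 1)) * x j) * (c * lam μ) := by ring
      rw [h5, h4, hcdef]
      linear_combination -(h j)
  rw [h3, dh_frac _ c F hF] at hzero2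
  rcases mul_eq_zero.mp hzero2 with h6 | h6
  · exact absurd h6 (pow_ne_zero 3 hc0)
  · exact h6

/-- the direction is not zero when the map is generically finite -/
theorem dir_ne_zero {R : Type*} [CommRing R] [Algebra ℂ R] {n : ℕ} {L : Type*} [Field L]
    [Algebra ℂ L] (ψ : R →ₐ[ℂ] FractionRing (Polynomial L))
    (y : Fin (n + 1) → R) (hy : Algebra.adjoin ℂ (Set.range y) = ⊤)
    (hodd : Odd (Module.finrank (IntermediateField.adjoin ℂ (Set.range ψ))
      (FractionRing (Polynomial L))))
    (q : Polynomial L) (g : Fin (n + 1) → Polynomial L) (hq : q ≠ 0) (hq1 : q.natDegree ≤ 1)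
    (hg : ∀ j, (g j).natDegree ≤ 1)
    (h : ∀ j, ψ (y j) * algebraMap (Polynomial L) (FractionRing (Polynomial L)) q =
      algebraMap (Polynomial L) (FractionRing (Polynomial L)) (g j)) :
    (fun j => algebraMap (Polynomial L) (FractionRing (Polynomial L))
      (Polynomial.C ((g j).coeff 1)) - algebraMap (Polynomial L) (FractionRing (Polynomial L))
      (Polynomial.C (q.coeff 1)) * ψ (y j)) ≠ 0 := by
  classical
  intro hv
  set ι := algebraMap (Polynomial L) (FractionRing (Polynomial L)) with hι
  have hinj : Function.Injective ι := IsFractionRing.injective _ _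
  have hv' : ∀ j, ι (Polynomial.C ((g j).coeff 1)) = ι (Polynomial.C (q.coeff 1)) * ψ (y j) :=
    fun j => sub_eq_zero.mp (congrFun hv j)
  let lL : L →ₐ[ℂ] FractionRing (Polynomial L) :=
    IsScalarTower.toAlgHom ℂ L (FractionRing (Polynomial L))
  have hlL : ∀ a, lL a = ι (Polynomial.C a) := fun a =>
    (IsScalarTower.algebraMap_apply L (Polynomial L) (FractionRing (Polynomial L)) a)
  have hmem : ∀ j, ψ (y j) ∈ lL.fieldRange := by
    intro j
    by_cases hb : q.coeff 1 = 0
    · have h1 : (g j).coeff 1 = 0 := by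
        have h2 := hv' j
        rw [hb, Polynomial.C_0, map_zero, zero_mul] at h2
        exact Polynomial.C_eq_zero.mp (hinj (h2.trans (map_zero ι).symm))
      have hq0 := Polynomial.eq_X_add_C_of_natDegree_le_one hq1
      have hg0 := Polynomial.eq_X_add_C_of_natDegree_le_one (hg j)
      rw [hb, Polynomial.C_0, zero_mul, zero_add] at hq0
      rw [h1, Polynomial.C_0, zero_mul, zero_add] at hg0
      have hq2 : ι (Polynomial.C (q.coeff 0)) ≠ 0 := by
        rw [← hq0]
        exact fun h0 => hq (hinj (h0.trans (map_zero ι).symm))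
      have h3 := h j
      rw [hq0, hg0] at h3
      refine ⟨(g j).coeff 0 / q.coeff 0, ?_⟩
      show lL ((g j).coeff 0 / q.coeff 0) = _
      rw [map_div₀, hlL, hlL, div_eq_iff hq2]
      exact h3.symm
    · have hb2 : ι (Polynomial.C (q.coeff 1)) ≠ 0 :=
        fun h0 => hb (Polynomial.C_eq_zero.mp (hinj (h0.trans (map_zero ι).symm)))
      refine ⟨(g j).coeff 1 / q.coeff 1, ?_⟩
      show lL ((g j).coeff 1 / q.coeff 1) = _
      rw [map_div₀, hlL, hlL, div_eq_iff hb2, hv' j]
      ring
  have hle : IntermediateField.adjoin ℂ (Set.range ψ) ≤ lL.fieldRange := by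
    rw [IntermediateField.adjoin_le_iff]
    rintro _ ⟨a, rfl⟩
    have ha : a ∈ Algebra.adjoin ℂ (Set.range y) := by rw [hy]; trivial
    induction ha using Algebra.adjoin_induction with
    | mem z hz =>
      obtain ⟨j, rfl⟩ := hz
      exact hmem j
    | algebraMap r =>
      rw [AlgHom.commutes]
      exact lL.fieldRange.algebraMap_mem r
    | add a b _ _ ha hb => rw [map_add]; exact lL.fieldRange.add_mem ha hb
    | mul a b _ _ ha hb => rw [map_mul]; exact lL.fieldRange.mul_mem ha hb
  have hfin : FiniteDimensional (IntermediateField.adjoin ℂ (Set.range ψ))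
      (FractionRing (Polynomial L)) := FiniteDimensional.of_finrank_pos hodd.pos
  have halg : IsAlgebraic (IntermediateField.adjoin ℂ (Set.range ψ)) (ι Polynomial.X) :=
    Algebra.IsAlgebraic.isAlgebraic _
  obtain ⟨p, hp0, hp⟩ := halg
  -- move the coefficients to `L`
  have hch : ∀ e : IntermediateField.adjoin ℂ (Set.range ψ), ∃ a : L, lL a = (e : _) :=
    fun e => hle e.2
  let κ : IntermediateField.adjoin ℂ (Set.range ψ) →+* L :=
    (RingEquiv.ofLeftInverse (f := lL.toRingHom)
      (Function.leftInverse_invFun lL.toRingHom.injective)).symm.toRingHom.comp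
      ((IntermediateField.adjoin ℂ (Set.range ψ)).toSubfield.subtype.codRestrict
        lL.toRingHom.range (fun e => hch e))
  have hκ : ∀ e, lL (κ e) = (e : FractionRing (Polynomial L)) := by
    intro e
    have h1 := (RingEquiv.ofLeftInverse (f := lL.toRingHom)
      (Function.leftInverse_invFun lL.toRingHom.injective)).apply_symm_apply
      (⟨e, hch e⟩ : lL.toRingHom.range)
    exact congrArg Subtype.val h1
  have hκinj : Function.Injective κ := κ.injective
  apply Polynomial.transcendental_X L
  refine ⟨p.map κ, (Polynomial.map_ne_zero_iff hκinj).mpr hp0, ?_⟩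
  apply hinj
  rw [map_zero, ← hp, Polynomial.aeval_def, Polynomial.aeval_def, Polynomial.eval₂_map,
    Polynomial.hom_eval₂]
  congr 1
  ext e
  exact (hlL (κ e)).symm.trans (hκ e)

end Pool.Agent.Y201.VL
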