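import Mathlib

/-! # The second fundamental form of an affine hypersurface, and the special cubic
`x_n + x_0 ^ 3 + ⋯ + x_{n-1} ^ 3` -/

set_option autoImplicit false

namespace Pool.Agent.Y201.VL

open MvPolynomial

/-- the second fundamental form of the hypersurface `f = 0`, multiplied by the square of the last
derivative, in the first `n` coordinates of a tangent vector -/
noncomputable def HH {R : Type*} [CommRing R] {n : ℕ} (f : MvPolynomial (Fin (n + 1)) R)
    (i j : Fin n) : MvPolynomial (Fin (n + 1)) R :=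
  pderiv i.castSucc (pderiv j.castSucc f) * pderiv (Fin.last n) f * pderiv (Fin.last n) f
    - pderiv i.castSucc (pderiv (Fin.last n) f) * pderiv (Fin.last n) f * pderiv j.castSucc f
    - pderiv j.castSucc (pderiv (Fin.last n) f) * pderiv (Fin.last n) f * pderiv i.castSucc f
    + pderiv (Fin.last n) (pderiv (Fin.last n) f) * pderiv i.castSucc f * pderiv j.castSucc f

theorem HH_map {R S : Type*} [CommRing R] [CommRing S] (φ : R →+* S) {n : ℕ}
    (f : MvPolynomial (Fin (n + 1)) R) (i j : Fin n) :
    HH (MvPolynomial.map φ f) i j = MvPolynomial.map φ (HH f i j) := by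
  simp only [HH, pderiv_map, map_add, map_sub, map_mul]

theorem HH_smul {R : Type*} [CommRing R] {n : ℕ} (c : R)
    (f : MvPolynomial (Fin (n + 1)) R) (i j : Fin n) :
    HH (C c * f) i j = C c * C c * C c * HH f i j := by
  simp only [HH, pderiv_C_mul]
  ring

/-- the special cubic -/
noncomputable def f0 (R : Type*) [CommRing R] (n : ℕ) : MvPolynomial (Fin (n + 1)) R :=
  X (Fin.last n) + ∑ i : Fin n, X i.castSucc ^ 3

theorem pd_last (R : Type*) [CommRing R] (n : ℕ) : pderiv (Fin.last n) (f0 R n) = 1 := by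
  rw [f0, map_add, pderiv_X_self, map_sum, Finset.sum_eq_zero, add_zero]
  intro i _
  rw [pderiv_pow, pderiv_X_of_ne (Fin.castSucc_lt_last i).ne, mul_zero]

theorem pd_cast (R : Type*) [CommRing R] (n : ℕ) (i : Fin n) :
    pderiv i.castSucc (f0 R n) = 3 * X i.castSucc ^ 2 := by
  rw [f0, map_add, pderiv_X_of_ne (Fin.castSucc_lt_last i).ne', map_sum,
    Finset.sum_eq_single i, zero_add, pderiv_pow, pderiv_X_self, mul_one]
  · norm_num
  · intro j _ hj
    rw [pderiv_pow, pderiv_X_of_ne, mul_zero]
    exact fun h => hj (Fin.castSucc_injective _ h)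
  · intro h; exact absurd (Finset.mem_univ _) h

theorem HH_f0 (R : Type*) [CommRing R] (n : ℕ) (i j : Fin n) :
    HH (f0 R n) i j = if i = j then 6 * X i.castSucc else 0 := by
  rw [HH, pd_last, pd_cast, pd_cast]
  have h1 : ∀ k : Fin (n + 1), pderiv k (1 : MvPolynomial (Fin (n + 1)) R) = 0 := fun k =>
    pderiv_one
  have h3 : pderiv i.castSucc (3 : MvPolynomial (Fin (n + 1)) R) = 0 := by
    have : (3 : MvPolynomial (Fin (n + 1)) R) = C (3 : R) := (map_ofNat C 3).symm
    rw [this, pderiv_C]
  rw [h1, h1, h1, Derivation.leibniz, h3]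
  split_ifs with h
  · subst h
    rw [pderiv_pow, pderiv_X_self]
    simp only [smul_eq_mul]
    ring
  · rw [pderiv_pow, pderiv_X_of_ne]
    · simp
    · exact fun h' => h (Fin.castSucc_injective _ h').symm

/-- `c_1 X_1, …, c_n X_n` is anisotropic over the rational functions -/
theorem aniso {κ : Type*} [Field κ] {n : ℕ} (c : κ) (hc : c ≠ 0)
    (g : Fin n → MvPolynomial (Fin n) κ) (h : ∑ i, C c * X i * (g i * g i) = 0) : ∀ i, g i = 0 := by
  classical
  by_contra hcon
  push Not at hcon
  obtain ⟨i1, hi1⟩ := hcon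
  let m : MonomialOrder (Fin n) := MonomialOrder.lex
  let t : Fin n → MvPolynomial (Fin n) κ := fun i => C c * X i * (g i * g i)
  have hX : ∀ i : Fin n, (C c * X i : MvPolynomial (Fin n) κ) ≠ 0 := fun i =>
    mul_ne_zero (by rw [Ne, C_eq_zero]; exact hc) (X_ne_zero i)
  have ht : ∀ i, g i ≠ 0 → t i ≠ 0 := fun i hi => mul_ne_zero (hX i) (mul_ne_zero hi hi)
  have hdeg : ∀ i, g i ≠ 0 → m.degree (t i) =
      Finsupp.single i 1 + (m.degree (g i) + m.degree (g i)) := by
    intro i hi
    show m.degree (C c * X i * (g i * g i)) = _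
    rw [m.degree_mul (hX i) (mul_ne_zero hi hi), m.degree_mul hi hi,
      m.degree_mul (by rw [Ne, C_eq_zero]; exact hc) (X_ne_zero i), m.degree_C, m.degree_X, zero_add]
  obtain ⟨i0, hi0, hmax⟩ := (Finset.univ.filter fun i => g i ≠ 0).exists_max_image
    (fun i => m.toSyn (m.degree (t i))) ⟨i1, by simpa using hi1⟩
  have hi0' : g i0 ≠ 0 := by simpa using hi0
  have hlt : ∀ i, i ≠ i0 → coeff (m.degree (t i0)) (t i) = 0 := by
    intro i hi
    by_cases hgi : g i = 0
    · show coeff _ (C c * X i * (g i * g i)) = 0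
      rw [hgi]; simp
    · apply m.coeff_eq_zero_of_lt
      refine lt_of_le_of_ne (hmax i (by simpa using hgi)) ?_
      intro heq
      have h1 : m.degree (t i) = m.degree (t i0) := m.toSyn.injective heq
      rw [hdeg i hgi, hdeg i0 hi0'] at h1
      have h2 := DFunLike.congr_fun h1 i
      simp only [Finsupp.add_apply, Finsupp.single_eq_same] at h2
      rw [Finsupp.single_eq_of_ne (by exact hi)] at h2
      omega
  have h1 : coeff (m.degree (t i0)) (∑ i, t i) = coeff (m.degree (t i0)) (t i0) := by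
    rw [coeff_sum]
    exact Finset.sum_eq_single i0 (fun i _ hi => hlt i hi) (fun h => absurd (Finset.mem_univ _) h)
  have h2 : coeff (m.degree (t i0)) (t i0) ≠ 0 :=
    (m.coeff_degree_ne_zero_iff).mpr (ht i0 hi0')
  rw [← h1] at h2
  apply h2
  show coeff _ (∑ i, C c * X i * (g i * g i)) = 0
  rw [h, coeff_zero]

/-- the second fundamental form of the special cubic is anisotropic -/
theorem aniso_f0 {κ : Type*} [Field κ] (h6 : (6 : κ) ≠ 0) {n : ℕ}
    (r : Fin n → MvPolynomial (Fin (n + 1)) κ)
    (h : f0 κ n ∣ ∑ i, ∑ j, HH (f0 κ n) i j * r i * r j) : ∀ i, f0 κ n ∣ r i := by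
  classical
  let θ : MvPolynomial (Fin (n + 1)) κ →ₐ[κ] MvPolynomial (Fin n) κ :=
    aeval (Fin.lastCases (-∑ j : Fin n, X j ^ 3) (fun i => X i))
  let ι : MvPolynomial (Fin n) κ →ₐ[κ] MvPolynomial (Fin (n + 1)) κ := rename Fin.castSucc
  have hθc : ∀ i : Fin n, θ (X i.castSucc) = X i := by
    intro i
    show aeval _ _ = _
    rw [aeval_X, Fin.lastCases_castSucc]
  have hθl : θ (X (Fin.last n)) = -∑ j : Fin n, X j ^ 3 := by
    show aeval _ _ = _
    rw [aeval_X, Fin.lastCases_last]
  have hθ0 : θ (f0 κ n) = 0 := by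
    rw [f0, map_add, hθl, map_sum]
    simp only [map_pow, hθc]
    rw [neg_add_cancel]
  have hker : ∀ p, f0 κ n ∣ p - ι (θ p) := by
    intro p
    rw [← Ideal.mem_span_singleton, ← Ideal.Quotient.eq]
    have hh : (Ideal.Quotient.mkₐ κ (Ideal.span {f0 κ n})).comp (AlgHom.id κ _) =
        (Ideal.Quotient.mkₐ κ (Ideal.span {f0 κ n})).comp (ι.comp θ) := by
      apply algHom_ext
      intro i
      simp only [AlgHom.comp_apply, AlgHom.id_apply]
      refine Fin.lastCases ?_ (fun i => ?_) i
      · rw [hθl, map_neg, map_sum]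
        simp only [Ideal.Quotient.mkₐ_eq_mk]
        rw [Ideal.Quotient.eq, Ideal.mem_span_singleton, sub_neg_eq_add]
        refine ⟨1, ?_⟩
        rw [mul_one, f0]
        congr 1
        refine Finset.sum_congr rfl fun j _ => ?_
        show rename _ _ = _
        rw [map_pow, rename_X]
      · rw [hθc]
        show _ = Ideal.Quotient.mkₐ κ _ (rename _ _)
        rw [rename_X]
    exact DFunLike.congr_fun hh p
  have h1 : ∑ i, C (6 : κ) * X i * (θ (r i) * θ (r i)) = 0 := by
    obtain ⟨q, hq⟩ := h
    have h2 := congrArg θ hq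
    rw [map_mul, hθ0, zero_mul, map_sum] at h2
    rw [← h2]
    refine Finset.sum_congr rfl fun i _ => ?_
    rw [map_sum, Finset.sum_eq_single i]
    · rw [HH_f0, if_pos rfl, map_mul, map_mul, map_mul, hθc]
      have : θ (6 : MvPolynomial (Fin (n + 1)) κ) = C (6 : κ) := by
        rw [map_ofNat θ 6]; exact (map_ofNat C 6).symm
      rw [this]
      ring
    · intro j _ hj
      rw [HH_f0, if_neg (Ne.symm hj)]
      simp
    · intro h'; exact absurd (Finset.mem_univ _) h'
  have h2 := aniso (6 : κ) h6 _ h1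
  intro i
  have h3 := hker (r i)
  rw [h2 i, map_zero, sub_zero] at h3
  exact h3

/-- the leading coefficient in the variable `x_0` of a polynomial of degree at most three -/
theorem lead {R : Type*} [CommRing R] {n : ℕ} (p : MvPolynomial (Fin (n + 1)) R)
    (hp : p.totalDegree ≤ 3) :
    (finSuccEquiv R n p).natDegree ≤ 3 ∧
      (finSuccEquiv R n p).coeff 3 = C (p.coeff (Finsupp.single 0 3)) := by
  refine ⟨?_, ?_⟩
  · rw [natDegree_finSuccEquiv]
    exact (degreeOf_le_totalDegree _ _).trans hp
  · ext m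
    rw [finSuccEquiv_coeff_coeff, coeff_C]
    split_ifs with hm
    · rw [← hm]
      congr 1
      ext i
      refine Fin.cases ?_ (fun j => ?_) i
      · simp
      · simp [Finsupp.cons_succ, Fin.succ_ne_zero]
    · by_contra hne
      have h1 := le_totalDegree (mem_support_iff.mpr hne)
      have h2 : (Finsupp.cons 3 m).sum (fun _ e => e) = 3 + m.sum (fun _ e => e) := by
        rw [Finsupp.sum_fintype _ _ (fun _ => rfl), Finsupp.sum_fintype _ _ (fun _ => rfl),
          Fin.sum_univ_succ, Finsupp.cons_zero]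
        simp only [Finsupp.cons_succ]
      rw [h2] at h1
      have h3 : m.sum (fun _ e => e) = 0 := by omega
      rw [Finsupp.sum_fintype _ _ (fun _ => rfl), Finset.sum_eq_zero_iff] at h3
      apply hm
      ext i
      rw [h3 i (Finset.mem_univ _)]
      rfl

theorem finSuccEquiv_map {R S : Type*} [CommRing R] [CommRing S] (φ : R →+* S) {n : ℕ}
    (p : MvPolynomial (Fin (n + 1)) R) :
    finSuccEquiv S n (MvPolynomial.map φ p) =
      (finSuccEquiv R n p).map (MvPolynomial.map φ) := by
  ext i m
  rw [finSuccEquiv_coeff_coeff, Polynomial.coeff_map, coeff_map, coeff_map,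
    finSuccEquiv_coeff_coeff]

end Pool.Agent.Y201.VL
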