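import Mathlib

/-! # Specialization of systems of two quadratic conditions modulo a monic polynomial -/

set_option autoImplicit false

namespace Pool.Agent.Y201.VL

open Polynomial

/-- scaling a finitely supported family such that it becomes integral and primitive -/
theorem scale {K : Type*} [Field K] (V : ValuationSubring K) {T : Type*} (a : T → K)
    (hfin : {t | a t ≠ 0}.Finite) (hne : ∃ t, a t ≠ 0) :
    ∃ c : K, c ≠ 0 ∧ (∀ t, c * a t ∈ V) ∧ ∃ t, c * a t ∉ V.nonunits := by
  classical
  obtain ⟨t1, ht1⟩ := hne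
  obtain ⟨t0, ht0, hmax⟩ := hfin.toFinset.exists_max_image (fun t => V.valuation (a t))
    ⟨t1, by simpa using ht1⟩
  have ht0' : a t0 ≠ 0 := by simpa using ht0
  refine ⟨(a t0)⁻¹, inv_ne_zero ht0', fun t => ?_, t0, ?_⟩
  · rw [← V.valuation_le_one_iff, map_mul, map_inv₀]
    by_cases ht : a t = 0
    · rw [ht, map_zero, mul_zero]; exact zero_le_one
    · have h1 := hmax t (by simpa using ht)
      have h2 : V.valuation (a t0) ≠ 0 := (_root_.map_ne_zero _).mpr ht0'
      calc (V.valuation (a t0))⁻¹ * V.valuation (a t)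
          ≤ (V.valuation (a t0))⁻¹ * V.valuation (a t0) := mul_le_mul_right h1 _
        _ = 1 := inv_mul_cancel₀ h2
  · rw [inv_mul_cancel₀ ht0', V.mem_nonunits_iff, map_one]
    exact lt_irrefl 1

variable {K : Type*} [Field K] (V : ValuationSubring K) {n : ℕ}

/-- the residue field -/
abbrev Res : Type _ := IsLocalRing.ResidueField V

/-- inclusion on the coefficients -/
noncomputable abbrev inc : Polynomial (MvPolynomial (Fin n) V) →+*
    Polynomial (MvPolynomial (Fin n) K) :=
  Polynomial.mapRingHom (MvPolynomial.map V.subtype)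

/-- reduction of the coefficients -/
noncomputable abbrev red : Polynomial (MvPolynomial (Fin n) V) →+*
    Polynomial (MvPolynomial (Fin n) (Res V)) :=
  Polynomial.mapRingHom (MvPolynomial.map (IsLocalRing.residue V))

theorem inc_inj : Function.Injective (inc V (n := n)) :=
  Polynomial.map_injective _ (MvPolynomial.map_injective _ Subtype.val_injective)

theorem exists_lift {ι : Type*} [Finite ι] (r : ι → Polynomial (MvPolynomial (Fin n) K))
    (hr : ∃ i, r i ≠ 0) :
    ∃ (c : K) (u : ι → Polynomial (MvPolynomial (Fin n) V)), c ≠ 0 ∧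
      (∀ i, inc V (u i) = Polynomial.C (MvPolynomial.C c) * r i) ∧ ∃ i, red V (u i) ≠ 0 := by
  classical
  cases nonempty_fintype ι
  let a : ι × ℕ × (Fin n →₀ ℕ) → K := fun t => MvPolynomial.coeff t.2.2 ((r t.1).coeff t.2.1)
  have hfin : {t | a t ≠ 0}.Finite := by
    have h1 : {t | a t ≠ 0} ⊆ ⋃ i : ι, ⋃ m ∈ ((r i).support : Set ℕ),
        ((fun e => ((i, m, e) : ι × ℕ × (Fin n →₀ ℕ))) '' (((r i).coeff m).support : Set _)) := by
      rintro ⟨i, m, e⟩ hme
      have hme' : MvPolynomial.coeff e ((r i).coeff m) ≠ 0 := hme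
      simp only [Set.mem_iUnion]
      refine ⟨i, m, ?_, e, ?_, rfl⟩
      · rw [Finset.mem_coe, Polynomial.mem_support_iff]
        intro h0
        rw [h0, MvPolynomial.coeff_zero] at hme'
        exact hme' rfl
      · rw [Finset.mem_coe, MvPolynomial.mem_support_iff]
        exact hme'
    refine Set.Finite.subset ?_ h1
    refine Set.finite_iUnion fun i => Set.Finite.biUnion (Finset.finite_toSet _) fun m _ => ?_
    exact (Finset.finite_toSet _).image _
  have hne : ∃ t, a t ≠ 0 := by
    obtain ⟨i, hi⟩ := hr
    obtain ⟨m, hm⟩ : ∃ m, (r i).coeff m ≠ 0 := by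
      by_contra hcon
      push Not at hcon
      exact hi (Polynomial.ext fun m => by rw [hcon m, Polynomial.coeff_zero])
    obtain ⟨e, he⟩ : ∃ e, MvPolynomial.coeff e ((r i).coeff m) ≠ 0 := by
      by_contra hcon
      push Not at hcon
      exact hm (MvPolynomial.ext _ _ fun e => by rw [hcon e, MvPolynomial.coeff_zero])
    exact ⟨(i, m, e), he⟩
  obtain ⟨c, hc, hV, t0, ht0⟩ := scale V a hfin hne
  have hlift : ∀ i, ∃ u : Polynomial (MvPolynomial (Fin n) V),
      inc V u = Polynomial.C (MvPolynomial.C c) * r i := by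
    intro i
    have h1 : Polynomial.C (MvPolynomial.C c) * r i ∈
        Polynomial.lifts (MvPolynomial.map (σ := Fin n) V.subtype) := by
      rw [Polynomial.lifts_iff_coeff_lifts]
      intro m
      rw [Polynomial.coeff_C_mul]
      have h2 := MvPolynomial.mem_range_map_iff_coeffs_subset (f := V.subtype)
        (x := MvPolynomial.C c * (r i).coeff m)
      have h3 : MvPolynomial.C c * (r i).coeff m ∈
          Set.range (MvPolynomial.map (σ := Fin n) V.subtype) := by
        rw [h2]
        rintro x hx
        obtain ⟨e, he, rfl⟩ := MvPolynomial.mem_coeffs_iff.mp hx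
        rw [MvPolynomial.coeff_C_mul]
        exact ⟨⟨_, hV (i, m, e)⟩, rfl⟩
      exact h3
    obtain ⟨u, hu⟩ := (Polynomial.mem_lifts _).mp h1
    exact ⟨u, hu⟩
  choose u hu using hlift
  refine ⟨c, u, hc, hu, t0.1, fun h0 => ht0 ?_⟩
  have h1 : ((MvPolynomial.coeff t0.2.2 ((u t0.1).coeff t0.2.1) : V) : K) = c * a t0 := by
    have h2 := congrArg (fun p => MvPolynomial.coeff t0.2.2 (Polynomial.coeff p t0.2.1)) (hu t0.1)
    simp only [Polynomial.coe_mapRingHom, Polynomial.coeff_map, MvPolynomial.coeff_map,
      Polynomial.coeff_C_mul, MvPolynomial.coeff_C_mul] at h2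
    exact h2
  rw [← h1, ValuationSubring.coe_mem_nonunits_iff]
  have h3 := congrArg (fun p => MvPolynomial.coeff t0.2.2 (Polynomial.coeff p t0.2.1)) h0
  simp only [Polynomial.coe_mapRingHom, Polynomial.coeff_map, MvPolynomial.coeff_map,
    Polynomial.coeff_zero, MvPolynomial.coeff_zero] at h3
  exact (IsLocalRing.residue_eq_zero_iff _).mp h3

/-- Divisibility by a monic polynomial descends to the valuation ring. -/
theorem dvd_of_inc {f g : Polynomial (MvPolynomial (Fin n) V)} (hf : f.Monic)
    (h : inc V f ∣ inc V g) : f ∣ g := by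
  rwa [Polynomial.coe_mapRingHom, Polynomial.map_dvd_map _
    (MvPolynomial.map_injective _ Subtype.val_injective) hf] at h

/-- Specialization of a quadratic form modulo a monic polynomial with a nontrivial zero. -/
theorem specialize {ι : Type*} [Fintype ι] (f : Polynomial (MvPolynomial (Fin n) V))
    (hf : f.Monic) (S : ι → ι → Polynomial (MvPolynomial (Fin n) V))
    (w : ι → Polynomial (MvPolynomial (Fin n) K)) (hw : ∃ i, ¬ inc V f ∣ w i)
    (h : inc V f ∣ ∑ i, ∑ j, inc V (S i j) * w i * w j) :
    ∃ w' : ι → Polynomial (MvPolynomial (Fin n) (Res V)), (∃ i, ¬ red V f ∣ w' i) ∧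
      red V f ∣ ∑ i, ∑ j, red V (S i j) * w' i * w' j := by
  classical
  have hfK : (inc V f).Monic := hf.map _
  let r : ι → Polynomial (MvPolynomial (Fin n) K) := fun i => w i %ₘ inc V f
  have hr : ∃ i, r i ≠ 0 := by
    obtain ⟨i, hi⟩ := hw
    exact ⟨i, fun h0 => hi ((Polynomial.modByMonic_eq_zero_iff_dvd hfK).mp h0)⟩
  have hwr : ∀ i, inc V f ∣ w i - r i := by
    intro i
    refine ⟨w i /ₘ inc V f, ?_⟩
    have h1 := Polynomial.modByMonic_add_div (w i) (inc V f)
    simp only [r]
    linear_combination -h1
  have hdr : inc V f ∣ ∑ i, ∑ j, inc V (S i j) * r i * r j := by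
    have h1 : inc V f ∣ (∑ i, ∑ j, inc V (S i j) * w i * w j) -
        ∑ i, ∑ j, inc V (S i j) * r i * r j := by
      rw [← Finset.sum_sub_distrib]
      refine Finset.dvd_sum fun i _ => ?_
      rw [← Finset.sum_sub_distrib]
      refine Finset.dvd_sum fun j _ => ?_
      have h2 : inc V (S i j) * w i * w j - inc V (S i j) * r i * r j =
        inc V (S i j) * w i * (w j - r j) + (w i - r i) * (inc V (S i j) * r j) := by ring
      rw [h2]
      exact dvd_add (Dvd.dvd.mul_left (hwr j) _) (Dvd.dvd.mul_right (hwr i) _)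
    have h3 := dvd_sub h h1
    simpa using h3
  obtain ⟨c, u, hc, hu, i0, hi0⟩ := exists_lift V r hr
  refine ⟨fun i => red V (u i), ⟨i0, fun hdvd => hi0 ?_⟩, ?_⟩
  · -- degree
    by_cases hf1 : f = 1
    · exfalso
      obtain ⟨i, hi⟩ := hw
      apply hi
      rw [hf1, map_one]
      exact one_dvd _
    · have hdeg : (u i0).degree < f.degree := by
        have h1 : (inc V (u i0)).degree < (inc V f).degree := by
          rw [hu]
          have hcc : (MvPolynomial.C c : MvPolynomial (Fin n) K) ≠ 0 := by
            rw [Ne, MvPolynomial.C_eq_zero]; exact hc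
          rw [Polynomial.degree_C_mul hcc]
          exact Polynomial.degree_modByMonic_lt _ hfK
        have h5 : (inc V (u i0)).degree = (u i0).degree := Polynomial.degree_map_eq_of_injective
          (MvPolynomial.map_injective _ Subtype.val_injective) _
        have h6 : (inc V f).degree = f.degree := Polynomial.degree_map_eq_of_injective
          (MvPolynomial.map_injective _ Subtype.val_injective) _
        rwa [h5, h6] at h1
      have hfr : (red V f).Monic := hf.map _
      by_contra hne
      have h2 : (red V f).degree = f.degree := by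
        rw [Polynomial.coe_mapRingHom]
        exact hf.degree_map _
      have h3 : (red V (u i0)).degree < (red V f).degree := by
        rw [h2]
        exact lt_of_le_of_lt Polynomial.degree_map_le hdeg
      have h4 : (red V (u i0)) %ₘ (red V f) = red V (u i0) :=
        (Polynomial.modByMonic_eq_self_iff hfr).mpr h3
      rw [(Polynomial.modByMonic_eq_zero_iff_dvd hfr).mpr hdvd] at h4
      exact hne h4.symm
  · have h1 : f ∣ ∑ i, ∑ j, S i j * u i * u j := by
      refine dvd_of_inc V hf ?_
      rw [map_sum]
      have h2 : (∑ i, inc V (∑ j, S i j * u i * u j)) =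
          Polynomial.C (MvPolynomial.C c) * Polynomial.C (MvPolynomial.C c) *
          ∑ i, ∑ j, inc V (S i j) * r i * r j := by
        rw [Finset.mul_sum]
        refine Finset.sum_congr rfl fun i _ => ?_
        rw [map_sum, Finset.mul_sum]
        refine Finset.sum_congr rfl fun j _ => ?_
        rw [map_mul, map_mul, hu, hu]
        ring
      rw [h2]
      exact Dvd.dvd.mul_left hdr _
    have h2 := map_dvd (red V) h1
    simpa only [map_sum, map_mul] using h2

end Pool.Agent.Y201.VL
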