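import Pool.Agent.Y201.VL.Very
import Pool.Agent.Y201.VL.Spec
import Pool.Agent.Y201.VL.Form

/-! # The second fundamental form of a very general cubic hypersurface -/

set_option autoImplicit false

namespace Pool.Agent.Y201.VL

open MvPolynomial

/-- restriction to the chart `x_0 = 1` -/
noncomputable def dh (R : Type*) [CommRing R] (n : ℕ) :
    MvPolynomial (Fin (n + 1 + 1)) R →ₐ[R] MvPolynomial (Fin (n + 1)) R :=
  aeval (Fin.cases (motive := fun _ => MvPolynomial (Fin (n + 1)) R) 1 (fun j => X j))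

theorem dh_zero (R : Type*) [CommRing R] (n : ℕ) : dh R n (X 0) = 1 := by
  rw [dh, aeval_X]; rfl

theorem dh_succ (R : Type*) [CommRing R] (n : ℕ) (j : Fin (n + 1)) :
    dh R n (X j.succ) = X j := by
  rw [dh, aeval_X]; rfl

theorem dh_map {R S : Type*} [CommRing R] [CommRing S] (φ : R →+* S) {n : ℕ}
    (p : MvPolynomial (Fin (n + 1 + 1)) R) :
    dh S n (MvPolynomial.map φ p) = MvPolynomial.map φ (dh R n p) := by
  induction p using MvPolynomial.induction_on with
  | C a => rw [map_C, dh, dh, aeval_C, aeval_C, algebraMap_eq, algebraMap_eq, map_C]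
  | add p q hp hq => simp only [map_add, hp, hq]
  | mul_X p i hp =>
    rw [map_mul, map_mul, map_mul, map_mul, hp, map_X]
    congr 1
    refine Fin.cases ?_ (fun j => ?_) i
    · rw [dh_zero, dh_zero, map_one]
    · rw [dh_succ, dh_succ, map_X]

theorem totalDegree_dh {R : Type*} [CommRing R] {n : ℕ} (p : MvPolynomial (Fin (n + 1 + 1)) R) :
    (dh R n p).totalDegree ≤ p.totalDegree := by
  rw [dh, aeval_def, eval₂_eq']
  refine totalDegree_finsetSum_le fun d hd => ?_
  refine (totalDegree_mul _ _).trans ?_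
  rw [algebraMap_eq, totalDegree_C, zero_add]
  refine (totalDegree_finsetProd _ _).trans ?_
  refine le_trans ?_ (le_totalDegree hd)
  rw [Finsupp.sum_fintype _ _ (fun _ => rfl)]
  refine Finset.sum_le_sum fun i _ => ?_
  refine (totalDegree_pow _ _).trans ?_
  refine (Nat.mul_le_mul_left _ (m := 1) ?_).trans (mul_one _).le
  refine Fin.cases ?_ (fun j => ?_) i
  · show (1 : MvPolynomial (Fin (n + 1)) R).totalDegree ≤ 1
    rw [totalDegree_one]; exact zero_le_one
  · show (X j : MvPolynomial (Fin (n + 1)) R).totalDegree ≤ 1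
    refine (totalDegree_monomial_le _ _).trans ?_
    rw [Finsupp.sum_single_index rfl]
    exact le_refl 1

/-- the homogeneous special cubic -/
noncomputable def F0 (R : Type*) [CommRing R] (n : ℕ) : MvPolynomial (Fin (n + 1 + 1)) R :=
  X 0 ^ 2 * X (Fin.last n).succ + ∑ i : Fin n, X i.castSucc.succ ^ 3

theorem dh_F0 (R : Type*) [CommRing R] (n : ℕ) : dh R n (F0 R n) = f0 R n := by
  rw [F0, f0, map_add, map_mul, map_pow, dh_zero, dh_succ, one_pow, one_mul, map_sum]
  congr 1
  refine Finset.sum_congr rfl fun i _ => ?_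
  rw [map_pow, dh_succ]

theorem F0_map {R S : Type*} [CommRing R] [CommRing S] (φ : R →+* S) (n : ℕ) :
    MvPolynomial.map φ (F0 R n) = F0 S n := by
  simp only [F0, map_add, map_mul, map_pow, map_sum, map_X]

theorem F0_hom (R : Type*) [CommRing R] (n : ℕ) : (F0 R n).IsHomogeneous 3 := by
  refine IsHomogeneous.add ?_ ?_
  · exact ((isHomogeneous_X R 0).pow 2).mul (isHomogeneous_X R _)
  · refine IsHomogeneous.sum _ _ _ fun i _ => ?_
    simpa using (isHomogeneous_X R i.castSucc.succ).pow 3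

theorem coeff_f0 (R : Type*) [CommRing R] {n : ℕ} (hn : 0 < n) :
    coeff (Finsupp.single 0 3) (f0 R n) = 1 := by
  classical
  obtain ⟨k, rfl⟩ : ∃ k, n = k + 1 := ⟨n - 1, by omega⟩
  rw [f0, coeff_add, coeff_sum, Finset.sum_eq_single 0]
  · rw [coeff_X, if_neg]
    · rw [X_pow_eq_monomial, coeff_monomial]
      simp
    · intro h
      have := DFunLike.congr_fun h (Fin.last (k + 1))
      rw [Finsupp.single_eq_same, Finsupp.single_apply, if_neg] at this
      · omega
      · exact (Fin.last_pos).ne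
  · intro j _ hj
    rw [X_pow_eq_monomial, coeff_monomial, if_neg]
    intro h
    have := DFunLike.congr_fun h 0
    rw [Finsupp.single_eq_same, Finsupp.single_apply, if_neg] at this
    · omega
    · intro h'
      apply hj
      exact Fin.castSucc_injective _ h'
  · intro h; exact absurd (Finset.mem_univ _) h

theorem hom_degree {σ R : Type*} [CommRing R] {p : MvPolynomial σ R} {d : ℕ}
    (hp : p.IsHomogeneous d) {m : σ →₀ ℕ} (hm : m.degree ≠ d) : p.coeff m = 0 := by
  by_contra h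
  have h2 := hp h
  rw [Finsupp.degree_eq_weight_one] at hm
  exact hm h2

theorem inc_fse {K : Type*} [Field K] (V : ValuationSubring K) {n : ℕ}
    (p : MvPolynomial (Fin (n + 1)) V) :
    inc V (finSuccEquiv V n p) = finSuccEquiv K n (MvPolynomial.map V.subtype p) :=
  (finSuccEquiv_map _ _).symm

theorem red_fse {K : Type*} [Field K] (V : ValuationSubring K) {n : ℕ}
    (p : MvPolynomial (Fin (n + 1)) V) :
    red V (finSuccEquiv V n p) =
      finSuccEquiv (Res V) n (MvPolynomial.map (IsLocalRing.residue V) p) :=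
  (finSuccEquiv_map _ _).symm

/-- a model of `F` over a valuation ring -/
theorem model {n : ℕ} (F : MvPolynomial (Fin (n + 1 + 1)) ℂ) (hF : F.IsHomogeneous 3)
    (hai : AlgebraicIndependent ℚ (fun m : Ex (Fin (n + 1 + 1)) 3 => F.coeff (m : _ →₀ ℕ))) :
    ∃ (V : ValuationSubring ℂ) (FV : MvPolynomial (Fin (n + 1 + 1)) V),
      MvPolynomial.map V.subtype FV = F ∧
      MvPolynomial.map (IsLocalRing.residue V) FV = F0 (Res V) n ∧ (6 : Res V) ≠ 0 := by
  classical
  obtain ⟨V, hV1, hV2⟩ := exists_valuation _ hai (fun m => (F0 ℚ n).coeff (m : _ →₀ ℕ))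
  let ρ : ℚ →+* V := (algebraMap ℚ ℂ).codRestrict V hV1
  have hsub : ∀ m : Fin (n + 1 + 1) →₀ ℕ, F.coeff m - ((F0 ℚ n).coeff m : ℚ) ∈ V.nonunits := by
    intro m
    by_cases hm : m.degree = 3
    · exact hV2 ⟨m, hm⟩
    · rw [hom_degree hF hm, hom_degree (F0_hom ℚ n) hm]
      simp
  have hmem : ∀ m, F.coeff m ∈ V := by
    intro m
    have h1 := V.add_mem _ _ (V.nonunits_le (hsub m)) (hV1 ((F0 ℚ n).coeff m))
    simpa using h1
  have hrange : F ∈ Set.range (MvPolynomial.map (σ := Fin (n + 1 + 1)) V.subtype) := by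
    rw [mem_range_map_iff_coeffs_subset]
    rintro x hx
    obtain ⟨e, he, rfl⟩ := mem_coeffs_iff.mp hx
    exact ⟨⟨_, hmem e⟩, rfl⟩
  obtain ⟨FV, hFV⟩ := hrange
  refine ⟨V, FV, hFV, ?_, ?_⟩
  · rw [← F0_map ((IsLocalRing.residue V).comp ρ) n]
    ext m
    rw [coeff_map, coeff_map, RingHom.comp_apply, ← sub_eq_zero, ← map_sub,
      IsLocalRing.residue_eq_zero_iff, ← ValuationSubring.coe_mem_nonunits_iff]
    have h1 : ((FV.coeff m - ρ ((F0 ℚ n).coeff m) : V) : ℂ) =
        F.coeff m - ((F0 ℚ n).coeff m : ℚ) := by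
      rw [← hFV, coeff_map]
      rfl
    rw [h1]
    exact hsub m
  · have h1 : ((IsLocalRing.residue V).comp ρ) 6 ≠ 0 :=
      (_root_.map_ne_zero _).mpr (by norm_num)
    rwa [map_ofNat] at h1

/-- a monic model over a valuation ring -/
theorem monic_model {n : ℕ} (hn : 0 < n) (F : MvPolynomial (Fin (n + 1 + 1)) ℂ)
    (hF : F.IsHomogeneous 3)
    (hai : AlgebraicIndependent ℚ (fun m : Ex (Fin (n + 1 + 1)) 3 => F.coeff (m : _ →₀ ℕ))) :
    ∃ (V : ValuationSubring ℂ) (g : MvPolynomial (Fin (n + 1)) V) (b : ℂ),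
      b ≠ 0 ∧ MvPolynomial.map V.subtype g = C b * dh ℂ n F ∧
      MvPolynomial.map (IsLocalRing.residue V) g = f0 (Res V) n ∧ (6 : Res V) ≠ 0 ∧
      (finSuccEquiv V n g).Monic := by
  obtain ⟨V, FV, hFV, hFr, h6⟩ := model F hF hai
  have hfV : MvPolynomial.map V.subtype (dh V n FV) = dh ℂ n F := by rw [← dh_map, hFV]
  have hfr : MvPolynomial.map (IsLocalRing.residue V) (dh V n FV) = f0 (Res V) n := by
    rw [← dh_map, hFr, dh_F0]
  have ha : IsLocalRing.residue V ((dh V n FV).coeff (Finsupp.single 0 3)) = 1 := by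
    rw [← coeff_f0 (Res V) hn, ← hfr, coeff_map]
  have hau : IsUnit ((dh V n FV).coeff (Finsupp.single 0 3)) := by
    by_contra h
    have h1 := (IsLocalRing.residue_eq_zero_iff _).mpr ((IsLocalRing.mem_maximalIdeal _).mpr h)
    rw [ha] at h1
    exact one_ne_zero h1
  obtain ⟨b, hb⟩ := hau.exists_left_inv
  have hbr : IsLocalRing.residue V b = 1 := by
    have h1 := congrArg (IsLocalRing.residue V) hb
    rwa [map_mul, ha, mul_one, map_one] at h1
  have hb0 : (b : ℂ) ≠ 0 := by
    intro h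
    have h1 : b = 0 := Subtype.ext h
    rw [h1, map_zero] at hbr
    exact zero_ne_one hbr
  refine ⟨V, C b * dh V n FV, b, hb0, ?_, ?_, h6, ?_⟩
  · rw [map_mul, map_C, hfV]
    rfl
  · rw [map_mul, map_C, hbr, hfr, map_one, one_mul]
  · have htd : (C b * dh V n FV).totalDegree ≤ 3 := by
      refine (totalDegree_mul _ _).trans ?_
      rw [totalDegree_C, zero_add]
      refine (totalDegree_dh _).trans ?_
      have h1 : FV.IsHomogeneous 3 := by
        intro m hm
        apply hF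
        rw [← hFV, coeff_map]
        intro h0
        exact hm (Subtype.ext h0)
      exact h1.totalDegree_le
    obtain ⟨h1, h2⟩ := lead _ htd
    refine Polynomial.monic_of_natDegree_le_of_coeff_eq_one 3 h1 ?_
    rw [h2, coeff_C_mul, hb, map_one]

theorem dvd_fse {n : ℕ} {f p : MvPolynomial (Fin (n + 1)) ℂ} {b : ℂ} (hb0 : b ≠ 0) :
    finSuccEquiv ℂ n (C b * f) ∣ finSuccEquiv ℂ n p ↔ f ∣ p := by
  constructor
  · intro h
    have h1 := map_dvd (finSuccEquiv ℂ n).symm h
    rw [AlgEquiv.symm_apply_apply, AlgEquiv.symm_apply_apply] at h1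
    exact (Dvd.intro_left _ rfl).trans h1
  · rintro ⟨q, rfl⟩
    apply map_dvd
    refine ⟨C (b⁻¹) * q, ?_⟩
    have h2 : (C b * C (b⁻¹) : MvPolynomial (Fin (n + 1)) ℂ) = 1 := by
      rw [← C_mul, mul_inv_cancel₀ hb0, C_1]
    linear_combination (-(f * q)) * h2

theorem not_dvd_one {κ : Type*} [Field κ] (n : ℕ) : ¬ f0 κ n ∣ 1 := by
  intro h5
  have h6' := map_dvd (aeval (R := κ) (fun _ : Fin (n + 1) => (0 : κ))) h5
  rw [map_one] at h6'
  have h7 : aeval (R := κ) (fun _ : Fin (n + 1) => (0 : κ)) (f0 κ n) = 0 := by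
    rw [f0, map_add, map_sum, aeval_X, zero_add]
    refine Finset.sum_eq_zero fun i _ => ?_
    rw [map_pow, aeval_X]
    norm_num
  rw [h7, zero_dvd_iff] at h6'
  exact one_ne_zero h6'

theorem geo_last {n : ℕ} (hn : 0 < n) (F : MvPolynomial (Fin (n + 1 + 1)) ℂ)
    (hF : F.IsHomogeneous 3)
    (hai : AlgebraicIndependent ℚ (fun m : Ex (Fin (n + 1 + 1)) 3 => F.coeff (m : _ →₀ ℕ))) :
    ¬ dh ℂ n F ∣ pderiv (Fin.last n) (dh ℂ n F) := by
  intro hd
  obtain ⟨V, g, b, hb0, hgC, hgr, h6, hmon⟩ := monic_model hn F hF hai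
  have h1 : inc V (finSuccEquiv V n g) ∣ inc V (finSuccEquiv V n (pderiv (Fin.last n) g)) := by
    rw [inc_fse, inc_fse, hgC, dvd_fse hb0, ← pderiv_map, hgC, pderiv_C_mul]
    exact Dvd.dvd.mul_left hd _
  have h2 := dvd_of_inc V hmon h1
  have h3 := map_dvd (red V) h2
  rw [red_fse, red_fse, hgr, ← pderiv_map, hgr, pd_last, map_one] at h3
  have h5 := map_dvd (finSuccEquiv (Res V) n).symm h3
  rw [AlgEquiv.symm_apply_apply, map_one] at h5
  exact not_dvd_one n h5

/-- The second fundamental form of a cubic hypersurface with algebraically independent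
coefficients is anisotropic at the generic point. -/
theorem geo {n : ℕ} (hn : 0 < n) (F : MvPolynomial (Fin (n + 1 + 1)) ℂ) (hF : F.IsHomogeneous 3)
    (hai : AlgebraicIndependent ℚ (fun m : Ex (Fin (n + 1 + 1)) 3 => F.coeff (m : _ →₀ ℕ)))
    (r : Fin n → MvPolynomial (Fin (n + 1)) ℂ)
    (hr : dh ℂ n F ∣ ∑ i, ∑ j, HH (dh ℂ n F) i j * r i * r j) (i0 : Fin n) :
    dh ℂ n F ∣ r i0 := by
  by_contra hi0
  obtain ⟨V, g, b, hb0, hgC, hgr, h6, hmon⟩ := monic_model hn F hF hai
  have hS : ∀ i j, inc V (finSuccEquiv V n (HH g i j)) =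
      finSuccEquiv ℂ n (C b * C b * C b * HH (dh ℂ n F) i j) := by
    intro i j
    rw [inc_fse, ← HH_map, hgC, HH_smul]
  have hw : ∃ i, ¬ inc V (finSuccEquiv V n g) ∣ (fun i => finSuccEquiv ℂ n (r i)) i := by
    refine ⟨i0, fun h => hi0 ?_⟩
    rwa [inc_fse, hgC, dvd_fse hb0] at h
  have hh : inc V (finSuccEquiv V n g) ∣ ∑ i, ∑ j, inc V ((fun i j => finSuccEquiv V n
      (HH g i j)) i j) * (fun i => finSuccEquiv ℂ n (r i)) i *
      (fun i => finSuccEquiv ℂ n (r i)) j := by
    have h2 : (∑ i, ∑ j, inc V ((fun i j => finSuccEquiv V n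
      (HH g i j)) i j) * (fun i => finSuccEquiv ℂ n (r i)) i *
      (fun i => finSuccEquiv ℂ n (r i)) j) =
        finSuccEquiv ℂ n (C b * C b * C b * ∑ i, ∑ j, HH (dh ℂ n F) i j * r i * r j) := by
      rw [map_mul, map_sum, Finset.mul_sum]
      refine Finset.sum_congr rfl fun i _ => ?_
      rw [map_sum, Finset.mul_sum]
      refine Finset.sum_congr rfl fun j _ => ?_
      simp only [hS, map_mul]
      ring
    rw [h2, inc_fse, hgC, dvd_fse hb0]
    exact Dvd.dvd.mul_left hr _
  obtain ⟨w', ⟨i1, hi1⟩, hw'⟩ := specialize V (finSuccEquiv V n g) hmon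
    (fun i j => finSuccEquiv V n (HH g i j)) (fun i => finSuccEquiv ℂ n (r i)) hw hh
  have hS' : ∀ i j, red V (finSuccEquiv V n (HH g i j)) =
      finSuccEquiv (Res V) n (HH (f0 (Res V) n) i j) := by
    intro i j
    rw [red_fse, ← HH_map, hgr]
  have hgg : red V (finSuccEquiv V n g) = finSuccEquiv (Res V) n (f0 (Res V) n) := by
    rw [red_fse, hgr]
  simp only [hS'] at hw'
  rw [hgg] at hi1 hw'
  have h2 : f0 (Res V) n ∣ ∑ i, ∑ j, HH (f0 (Res V) n) i j *
      (finSuccEquiv (Res V) n).symm (w' i) * (finSuccEquiv (Res V) n).symm (w' j) := by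
    have h3 := map_dvd (finSuccEquiv (Res V) n).symm hw'
    simpa only [AlgEquiv.symm_apply_apply, map_sum, map_mul] using h3
  have h3 := aniso_f0 h6 _ h2 i1
  apply hi1
  have h4 := map_dvd (finSuccEquiv (Res V) n) h3
  rwa [AlgEquiv.apply_symm_apply] at h4

end Pool.Agent.Y201.VL
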